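import Pool.Agent.Lead.BP.Bog2

open Pool.Agent.H38.NP Pool.Agent.Lead.BP

theorem Pool.Agent.Results.MP_406c0a_lc.Complete.result :
    NPHardOn Puzzle Solvable ∧ InNPOn Puzzle Solvable :=
  ⟨bog_nph.npHardOn, bog_NP⟩
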